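import Mathlib

namespace Pool.Agent.Results.MP_4cbb29_co.Proof

open Matrix Polynomial Finset

section defs
variable {V : Type} [Fintype V] [DecidableEq V]

/-- `A ∈ S(G)` -/
def InS (G : SimpleGraph V) (A : Matrix V V ℝ) : Prop :=
  A.IsSymm ∧ ∀ i j, i ≠ j → (A i j ≠ 0 ↔ G.Adj i j)

/-- minimum number of distinct eigenvalues -/
noncomputable def q (G : SimpleGraph V) : ℕ :=
  sInf {k | ∃ A, InS G A ∧ A.charpoly.roots.toFinset.card = k}

/-- `G` achieves the multiplicity bipartition `[N - k, k]` -/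
def Achieves (G : SimpleGraph V) (k : ℕ) : Prop :=
  1 ≤ k ∧ 2 * k ≤ Fintype.card V ∧ ∃ A, InS G A ∧ ∃ a b : ℝ, a ≠ b ∧
    A.charpoly.roots = Multiset.replicate (Fintype.card V - k) a + Multiset.replicate k b

noncomputable def MB (G : SimpleGraph V) : ℕ := sInf {k | Achieves G k}

end defs

/-- the tree `S^r_{m,n}`: path on `Fin r`, `m` leaves at `0`, `n` leaves at `r - 1` -/
def broom (r m n : ℕ) : SimpleGraph (Fin r ⊕ Fin m ⊕ Fin n) :=
  SimpleGraph.fromRel fun u v => match u, v with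
    | .inl i, .inl j => i.val + 1 = j.val
    | .inl i, .inr (.inl _) => i.val = 0
    | .inl i, .inr (.inr _) => i.val + 1 = r
    | _, _ => False

section general
variable {V : Type} [Fintype V] [DecidableEq V]

theorem count_rank (A : Matrix V V ℝ) (hA : A.IsSymm) (a : ℝ) :
    A.charpoly.roots.count a + (A - scalar V a).rank = Fintype.card V := by
  have hB : (A - scalar V a).IsHermitian := by
    refine IsHermitian.sub (by simpa [IsHermitian, conjTranspose_eq_transpose_of_trivial] using hA.eq)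
      ?_
    simp [scalar_apply]
  have h1 : A.charpoly.roots.count a = (A - scalar V a).charpoly.roots.count 0 := by
    rw [count_roots, count_roots, charpoly_sub_scalar, rootMultiplicity_eq_rootMultiplicity]
  rw [h1, hB.roots_charpoly_eq_eigenvalues, hB.rank_eq_card_non_zero_eigs, Multiset.count_map,
    Fintype.card_subtype]
  have := Finset.card_filter_add_card_filter_not (s := (univ : Finset V))
    (fun i => hB.eigenvalues i = 0)
  rw [card_univ] at this
  rw [← this]
  congr 1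
  rw [← Finset.filter_val, ← Finset.card_def]
  congr 1
  ext i
  simp only [mem_filter, mem_univ, true_and, Function.comp, RCLike.ofReal_real_eq_id, id]
  exact eq_comm

theorem card_roots_eq (A : Matrix V V ℝ) (hA : A.IsSymm) :
    A.charpoly.roots.card = Fintype.card V := by
  have hB : A.IsHermitian := by
    simpa [IsHermitian, conjTranspose_eq_transpose_of_trivial] using hA.eq
  simp [hB.roots_charpoly_eq_eigenvalues]

theorem main (T : SimpleGraph V) (c a d e b : V) (h1 : T.Adj c a) (h2 : T.Adj c d)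
    (h3 : T.Adj e d) (h4 : Tᶜ.Adj c b) (h5 : Tᶜ.Adj e a) (h6 : Tᶜ.Adj a d)
    (hN : 6 ≤ Fintype.card V) (v : V → Fin 3 → ℝ) (k : ℝ) (hk : k ≠ 0)
    (hv : ∀ s t, ∑ i, v i s * v i t = if s = t then k else 0)
    (hp : ∀ i j, i ≠ j → (v i 0 * v j 0 + v i 1 * v j 1 + v i 2 * v j 2 = 0 ↔ T.Adj i j)) :
    q Tᶜ = 2 ∧ MB Tᶜ = 3 := by
  have low : ∀ A, InS Tᶜ A → ∀ x, A.charpoly.roots.count x + 3 ≤ Fintype.card V := by
    intro A hA x
    rw [← count_rank A hA.1 x]
    have z : ∀ i j, T.Adj i j → (A - scalar V x) i j = 0 := by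
      intro i j h
      have := hA.2 i j h.ne
      simp only [SimpleGraph.compl_adj, h, not_true, and_false, iff_false, not_not] at this
      simp [this, scalar_apply, h.ne]
    have nz : ∀ i j, Tᶜ.Adj i j → (A - scalar V x) i j ≠ 0 := by
      intro i j h
      simpa [scalar_apply, h.ne] using (hA.2 i j h.ne).2 h
    generalize A - scalar V x = B at *
    have hu : IsUnit (B.submatrix ![c, e, a] ![b, a, d]) := by
      rw [isUnit_iff_isUnit_det, det_fin_three, isUnit_iff_ne_zero]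
      simp [z _ _ h1, z _ _ h2, z _ _ h3, nz _ _ h4, nz _ _ h5, nz _ _ h6]
    have := rank_of_isUnit _ hu
    have h' := rank_submatrix_le B ![c, e, a] ![b, a, d]
    simp only [Fintype.card_fin] at this
    omega
  let W : Matrix V (Fin 3) ℝ := Matrix.of v
  have hS : InS Tᶜ (W * Wᵀ) := by
    refine ⟨by simp [IsSymm, transpose_mul], fun i j hij => ?_⟩
    simp only [SimpleGraph.compl_adj, ne_eq, hij, not_false_iff, true_and, ← hp i j hij]
    simp [W, mul_apply, Fin.sum_univ_three]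
  have hW : Wᵀ * W = diagonal (fun _ => k) := by
    ext s t
    simp [W, mul_apply, hv, diagonal_apply]
  have hr : (W * Wᵀ).charpoly.roots =
      Multiset.replicate (Fintype.card V - 3) 0 + Multiset.replicate 3 k := by
    rw [charpoly_mul_comm_of_le _ _ (by simp; omega), hW, charpoly_diagonal, roots_mul
      (mul_ne_zero (pow_ne_zero _ X_ne_zero) (by simp [X_sub_C_ne_zero]))]
    simp [roots_pow, Multiset.nsmul_singleton]
  have a3 : Achieves Tᶜ 3 := ⟨by norm_num, by omega, _, hS, 0, k, hk.symm, hr⟩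
  constructor
  · have m2 : 2 ∈ {k | ∃ A, InS Tᶜ A ∧ A.charpoly.roots.toFinset.card = k} := by
      refine ⟨_, hS, ?_⟩
      rw [hr, Multiset.toFinset_add, Multiset.toFinset_replicate, Multiset.toFinset_replicate,
        if_neg (by omega), if_neg (by omega), ← insert_eq, card_pair hk.symm]
    refine le_antisymm (Nat.sInf_le m2) (le_csInf ⟨2, m2⟩ ?_)
    rintro _ ⟨A, hA, rfl⟩
    by_contra h
    obtain ⟨x, hx⟩ := card_le_one_iff_subset_singleton.1
      (show A.charpoly.roots.toFinset.card ≤ 1 by omega)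
    have := low A hA x
    rw [Multiset.count_eq_card.2 (fun y hy => (mem_singleton.1 (hx
      (Multiset.mem_toFinset.2 hy))).symm), card_roots_eq A hA.1] at this
    omega
  · refine le_antisymm (Nat.sInf_le a3) (le_csInf ⟨3, a3⟩ ?_)
    rintro j ⟨-, h0, A, hA, x, y, -, h⟩
    have := low A hA x
    rw [h, Multiset.count_add, Multiset.count_replicate_self] at this
    omega

end general

theorem small (m : ℕ) (hm : 1 < m) : ∃ x : Fin m → ℝ, ∑ i, x i = 0 ∧ ∑ i, x i * x i < m ∧
    ∀ i, x i ≠ 0 ∧ -1 / 4 ≤ x i ∧ x i ≤ 1 / 4 := by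
  obtain ⟨p, rfl⟩ : ∃ p, m = p + 2 := ⟨m - 2, by omega⟩
  have hp : (0 : ℝ) < p + 1 := by positivity
  have h1 : (1 : ℝ) / (4 * (p + 1)) ≤ 1 / 4 :=
    one_div_le_one_div_of_le (by norm_num) (by nlinarith [(p.cast_nonneg : (0 : ℝ) ≤ p)])
  have h2 : (0 : ℝ) < 1 / (4 * (p + 1)) := by positivity
  have key : ∀ i, (Fin.cons (-1 / 4) (fun _ => 1 / (4 * (p + 1))) : Fin (p + 2) → ℝ) i ≠ 0 ∧
      -1 / 4 ≤ (Fin.cons (-1 / 4) (fun _ => 1 / (4 * (p + 1))) : Fin (p + 2) → ℝ) i ∧
      (Fin.cons (-1 / 4) (fun _ => 1 / (4 * (p + 1))) : Fin (p + 2) → ℝ) i ≤ 1 / 4 := by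
    intro i
    refine Fin.cases ?_ (fun j => ?_) i
    · simp only [Fin.cons_zero]; norm_num
    · simp only [Fin.cons_succ]; exact ⟨h2.ne', by linarith, h1⟩
  refine ⟨_, ?_, ?_, key⟩
  · rw [Fin.sum_univ_succ]
    simp only [Fin.cons_zero, Fin.cons_succ, sum_const, card_univ, Fintype.card_fin, nsmul_eq_mul]
    push_cast
    field_simp
    ring
  · refine lt_of_lt_of_le (sum_lt_sum_of_nonempty (g := fun _ => (1 : ℝ)) univ_nonempty
      fun i _ => ?_) (by simp)
    obtain ⟨-, h3, h4⟩ := key i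
    nlinarith

theorem result (r m n : ℕ) (hr : r = 2 ∨ r = 3 ∨ r = 4) (hm : 1 < m) (hn : 1 < n) :
    q (broom r m n)ᶜ = 2 ∧ MB (broom r m n)ᶜ = 3 := by
  obtain ⟨x, x1, x2, x3⟩ := small m hm
  obtain ⟨y, y1, y2, y3⟩ := small n hn
  have x0 : 0 ≤ ∑ i, x i * x i := sum_nonneg fun i _ => mul_self_nonneg _
  have y0 : 0 ≤ ∑ i, y i * y i := sum_nonneg fun i _ => mul_self_nonneg _
  have hm' : (0 : ℝ) < m := by positivity
  have hn' : (0 : ℝ) < n := by positivity
  have rt : ∀ t : ℝ, 0 < t → ∃ s : ℝ, s ≠ 0 ∧ s * s = t := fun t ht =>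
    ⟨√t, (Real.sqrt_pos.2 ht).ne', Real.mul_self_sqrt ht.le⟩
  have xx : ∀ i j, 0 < x i * x j + 1 := fun i j => by
    obtain ⟨-, h1, h2⟩ := x3 i; obtain ⟨-, h3, h4⟩ := x3 j; nlinarith
  have yy : ∀ i j, 0 < y i * y j + 1 := fun i j => by
    obtain ⟨-, h1, h2⟩ := y3 i; obtain ⟨-, h3, h4⟩ := y3 j; nlinarith
  have xy : ∀ i j, 0 < x i * y j + 1 := fun i j => by
    obtain ⟨-, h1, h2⟩ := x3 i; obtain ⟨-, h3, h4⟩ := y3 j; nlinarith
  have xn : ∀ i, x i ≠ 0 := fun i => (x3 i).1
  have yn : ∀ i, y i ≠ 0 := fun i => (y3 i).1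
  rcases hr with rfl | rfl | rfl
  · obtain ⟨α, α0, hα⟩ := rt (m + n - ∑ i, y i * y i) (by linarith)
    obtain ⟨β, β0, hβ⟩ := rt (m + n - ∑ i, x i * x i) (by linarith)
    refine main _ (.inl 0) (.inr (.inl ⟨0, by omega⟩)) (.inl 1) (.inr (.inr ⟨0, by omega⟩))
      (.inr (.inr ⟨0, by omega⟩)) (by simp [broom]) (by simp [broom]) (by simp [broom])
      (by simp [broom]) (by simp [broom]) (by simp [broom]) (by simp; omega)
      (Sum.elim ![![α, 0, 0], ![0, β, 0]] (Sum.elim (fun i => ![0, x i, 1]) (fun i => ![y i, 0, 1])))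
      (m + n) (by linarith) ?_ ?_
    · intro s t
      fin_cases s <;> fin_cases t <;> simp [Fintype.sum_sum_type, x1, y1] <;> linarith
    · rintro (i | i | i) (j | j | j) h <;> (try fin_cases i) <;> (try fin_cases j) <;>
        simp [broom, α0, β0, xn, yn, (xx _ _).ne', (yy _ _).ne'] at h ⊢
  · obtain ⟨α, α0, hα⟩ := rt m hm'
    obtain ⟨β, β0, hβ⟩ := rt n hn'
    obtain ⟨δ, δ0, hδ⟩ := rt (m + 2 * n - ∑ i, x i * x i - ∑ i, y i * y i) (by linarith)
    refine main _ (.inl 0) (.inr (.inl ⟨0, by omega⟩)) (.inl 1) (.inl 2)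
      (.inr (.inr ⟨0, by omega⟩)) (by simp [broom]) (by simp [broom]) (by simp [broom])
      (by simp [broom]) (by simp [broom]) (by simp [broom]) (by simp; omega)
      (Sum.elim ![![0, α, 0], ![0, 0, δ], ![β, -β, 0]]
        (Sum.elim (fun i => ![1, 0, x i]) (fun i => ![1, 1, y i])))
      (m + 2 * n) (by linarith) ?_ ?_
    · intro s t
      fin_cases s <;> fin_cases t <;>
        simp [Fintype.sum_sum_type, Fin.sum_univ_three, x1, y1] <;> linarith
    · rintro (i | i | i) (j | j | j) h <;> (try fin_cases i) <;> (try fin_cases j) <;>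
        simp [broom, α0, β0, δ0, xn, yn] at h ⊢ <;> intro h' <;>
        first | linarith [xx i j] | linarith [xy i j] | linarith [xy j i] | linarith [yy i j]
  · obtain ⟨α, α0, hα⟩ := rt m hm'
    obtain ⟨β, β0, hβ⟩ := rt n hn'
    obtain ⟨δ, δ0, hδ⟩ := rt (2 * m - ∑ i, x i * x i) (by linarith)
    obtain ⟨ε, ε0, hε⟩ := rt (2 * n - ∑ i, y i * y i) (by linarith)
    have ax : ∀ i, β * x i ≠ β := fun i h => by
      have := mul_left_cancel₀ β0 (h.trans (mul_one β).symm); linarith [(x3 i).2.2]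
    have ay : ∀ i, α * y i ≠ α := fun i h => by
      have := mul_left_cancel₀ α0 (h.trans (mul_one α).symm); linarith [(y3 i).2.2]
    refine main _ (.inl 0) (.inr (.inl ⟨0, by omega⟩)) (.inl 1) (.inl 2)
      (.inr (.inr ⟨0, by omega⟩)) (by simp [broom]) (by simp [broom]) (by simp [broom])
      (by simp [broom]) (by simp [broom]) (by simp [broom]) (by simp; omega)
      (Sum.elim ![![0, α, α], ![δ, 0, 0], ![0, ε, 0], ![β, 0, β]]
        (Sum.elim (fun i => ![x i, 1, -1]) (fun i => ![1, y i, -1])))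
      (2 * m + 2 * n) (by linarith) ?_ ?_
    · intro s t
      fin_cases s <;> fin_cases t <;>
        simp [Fintype.sum_sum_type, Fin.sum_univ_four, x1, y1] <;> linarith
    · rintro (i | i | i) (j | j | j) h <;> (try fin_cases i) <;> (try fin_cases j) <;>
        simp [broom, α0, β0, δ0, ε0, xn, yn] at h ⊢ <;> intro h' <;>
        first | exact ax _ (by linarith) | exact ay _ (by linarith) | linarith [xx i j] |
          linarith [yy i j] | linarith [(x3 i).2.1, (y3 j).2.1] | linarith [(x3 j).2.1, (y3 i).2.1]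

end Pool.Agent.Results.MP_4cbb29_co.Proof
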